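import Pool.Agent.Helper17.OD.GoalsWM

/-! # MP_064283_lc: packet FB2 (helper50) -/

namespace Pool.Agent.Helper17.OD.PkFB2

open Set

/-- `z` is an element of a set defined by `R` from `b'`. -/
def Tz (W : Set Z) (R : Z → Z → Prop) (b' z : Z) : Prop := ∃ y ∈ W, R b' y ∧ z ∈ y

/-- `u` and `w` have the same section in `B`. -/
def Same (W : Set Z) (R : Z → Z → Prop) (B u w : Z) : Prop :=
  ∀ b' ∈ B, (Tz W R b' u ↔ Tz W R b' w)

variable {W Q : Set Z}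

theorem dTz [PS W Q] {R : Z → Z → Prop} (hR : DP W Q (fun v => R (v 0) (v 1))) :
    DP W Q (fun v => Tz W R (v 0) (v 1)) := by
  have h1 : DP W Q (fun v => ∃ y ∈ W, R (v 0) y ∧ v 1 ∈ y) := by
    refine DP.ex (P := fun y v => R (v 0) y ∧ v 1 ∈ y) ?_
    exact DP.and (DP.app2 hR (DT.var 1) (DT.var 0)) (DP.mem (DT.var 2) (DT.var 0))
  exact h1

theorem dSame [PS W Q] [ZM W] {R : Z → Z → Prop} (hR : DP W Q (fun v => R (v 0) (v 1))) {B : Z}
    (hB : B ∈ Q) : DP W Q (fun v => Same W R B (v 0) (v 1)) := by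
  have h1 : DP W Q (fun v => ∀ b' ∈ B, (Tz W R b' (v 0) ↔ Tz W R b' (v 1))) := by
    refine DP.ball (f := fun _ => B) (P := fun b' v => (Tz W R b' (v 0) ↔ Tz W R b' (v 1)))
      (DT.par hB) ?_
    exact DP.iff (DP.app2 (dTz hR) (DT.var 0) (DT.var 1)) (DP.app2 (dTz hR) (DT.var 0) (DT.var 2))
  exact h1

theorem thm (hPAR : G_PAR) (hWLV : G_WLV) (hWCS : G_WCS) (hODC : G_ODC) (hENC : G_ENC) :
    G_FB2 := by
  intro W κ α hz hHt hα hακ hall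
  have := hz
  obtain ⟨hE1, -, -, -, -, -⟩ := hENC
  obtain ⟨-, hOD2, hOD3, -, hPS1, -⟩ := hODC W ∅ hz
  obtain ⟨-, hW2, hW3, -, -⟩ := hWCS W κ hz hHt
  have hαW : α.toZFSet ∈ W := (hHt α).2 hακ
  obtain ⟨B, hBW, hB⟩ := (hWLV W W hz ZM.psW).1 α hαW
  obtain ⟨P, hPW, hP⟩ := hz.power B hBW
  refine ⟨P, hPW, fun X hX hXo => ?_⟩
  obtain ⟨⟨d, hd, hXd⟩, A, hA, hAX⟩ := hX
  have hdW : d.toZFSet ∈ W := (hHt d).2 hd
  obtain ⟨x, hxW, hx⟩ := hz.sep (fun y => ZFSet.pair (zn 1) y ∈ A)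
    (DP.mem (DT.pair (DT.nat 1) (DT.var 0)) (DT.par hA)) d.toZFSet hdW
  -- elements of `x`
  have hxo : ∀ ξ : O, ξ.toZFSet ∈ x ↔ Tr.ord ξ ∈ X := by
    intro ξ
    constructor
    · intro h
      obtain ⟨t, ht, e⟩ := (hAX _).1 ((hx _).1 h).2
      have e' : enc (.ord ξ) = enc t := e
      rw [hE1 _ _ e']
      exact ht
    · intro h
      have h1 : ξ < d := by
        have h2 := hXd h
        exact h2 (by simp [Tr.leaves])
      exact (hx _).2 ⟨Ordinal.toZFSet_mem_toZFSet_iff.2 h1, (hAX _).2 ⟨_, h, rfl⟩⟩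
  have hxo2 : ∀ u ∈ x, ∃ ξ : O, ξ < d ∧ u = ξ.toZFSet := by
    intro u hu
    obtain ⟨a, ha, e⟩ := Ordinal.mem_toZFSet_iff.1 ((hx _).1 hu).1
    exact ⟨a, ha, e.symm⟩
  obtain ⟨R, b, hb, hR, hRb⟩ := hPAR W α hz hα x (hall x hxW)
  have := hPS1
  have hRQ : DP W {x | ODF W ∅ x} (fun v => R (v 0) (v 1)) := hR.mono fun y hy => hOD3 y hy
  have hRW : DP W W (fun v => R (v 0) (v 1)) := hRQ.mono hPS1.sub
  have hαQ : ODF W ∅ α.toZFSet := hOD3 _ ⟨hαW, Or.inl (ZFSet.isOrdinal_toZFSet _)⟩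
  have hBQ : ODF W ∅ B := by
    refine hOD2 (fun y => ∃ a : O, α.toZFSet = a.toZFSet ∧ ∀ x, x ∈ y ↔ x ∈ Lev W a) ?_ B hBW ?_
    · exact DP.app2 (R := fun y w => ∃ a : O, w = a.toZFSet ∧ ∀ x, x ∈ y ↔ x ∈ Lev W a)
        (hWLV W {x | ODF W ∅ x} hz hPS1).2 (DT.var 0) (DT.par hαQ)
    · intro y _
      constructor
      · rintro ⟨a, ha, h⟩
        have := Ordinal.toZFSet_injective ha
        subst this
        ext z
        rw [h, hB]
      · rintro rfl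
        exact ⟨α, rfl, hB⟩
  have hbB : b ∈ B := (hB b).2 hb
  have hbT : ∀ z, Tz W R b z ↔ z ∈ x := by
    intro z
    constructor
    · rintro ⟨y, hy, h1, h2⟩
      rwa [(hRb y hy).1 h1] at h2
    · intro h
      exact ⟨x, hxW, (hRb x hxW).2 rfl, h⟩
  have hSx : ∀ u w, Same W R B u w → (u ∈ x ↔ w ∈ x) := by
    intro u w h
    rw [← hbT, ← hbT]
    exact h b hbB
  have hSs : ∀ u w, Same W R B u w → Same W R B w u := fun u w h b' hb' => (h b' hb').symm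
  have hSt : ∀ u w z, Same W R B u w → Same W R B w z → Same W R B u z :=
    fun u w z h h' b' hb' => (h b' hb').trans (h' b' hb')
  have hSr : ∀ u, Same W R B u u := fun u b' _ => Iff.rfl
  -- representatives
  let Rep : O → Prop := fun ξ => ξ.toZFSet ∈ x ∧ ∀ η < ξ, ¬ Same W R B η.toZFSet ξ.toZFSet
  have hRep : ∀ ξ : O, Rep ξ ↔ ξ.toZFSet ∈ x ∧ ∀ w ∈ ξ.toZFSet, ¬ Same W R B w ξ.toZFSet := by
    intro ξ
    refine and_congr_right fun _ => ?_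
    constructor
    · intro h w hw
      obtain ⟨a, ha, rfl⟩ := Ordinal.mem_toZFSet_iff.1 hw
      exact h a ha
    · intro h η hη
      exact h _ (Ordinal.toZFSet_mem_toZFSet_iff.2 hη)
  let U : Set T := {t | ∃ ξ ξ' : O, t = .pr (.ord ξ) (.ord ξ') ∧ ξ' < d ∧ Rep ξ ∧
    Same W R B ξ.toZFSet ξ'.toZFSet}
  have hU : ∀ ξ ξ' : O, Tr.pr (.ord ξ) (.ord ξ') ∈ U ↔ ξ' < d ∧ Rep ξ ∧
      Same W R B ξ.toZFSet ξ'.toZFSet := by
    intro ξ ξ'
    constructor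
    · rintro ⟨a, a', e, h⟩
      injection e with e1 e2
      injection e1 with e1
      injection e2 with e2
      subst e1; subst e2
      exact h
    · intro h
      exact ⟨ξ, ξ', rfl, h⟩
  have hxd : ∀ ξ : O, ξ.toZFSet ∈ x → ξ < d := fun ξ h =>
    Ordinal.toZFSet_mem_toZFSet_iff.1 ((hx _).1 h).1
  have hencp : ∀ ξ ξ' : O, enc (.pr (.ord ξ) (.ord ξ')) =
      ZFSet.pair (zn 2) (ZFSet.pair (ZFSet.pair (zn 1) ξ.toZFSet)
        (ZFSet.pair (zn 1) ξ'.toZFSet)) := fun ξ ξ' => rfl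
  refine ⟨U, ?_, ?_, ?_, ?_, ?_, ?_⟩
  · -- `U ∈ SW`
    have h1 := hW2 (fun z => ∃ u ∈ x, ∃ u' ∈ d.toZFSet,
      z = ZFSet.pair (zn 2) (ZFSet.pair (ZFSet.pair (zn 1) u) (ZFSet.pair (zn 1) u')) ∧
        (∀ w ∈ u, ¬ Same W R B w u) ∧ Same W R B u u') ?_ d hd
    · convert h1 using 1
      ext t
      constructor
      · rintro ⟨ξ, ξ', rfl, h2, h3, h4⟩
        refine ⟨?_, ξ.toZFSet, h3.1, ξ'.toZFSet, Ordinal.toZFSet_mem_toZFSet_iff.2 h2,
          hencp ξ ξ', ((hRep ξ).1 h3).2, h4⟩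
        intro y hy
        simp only [Tr.leaves, mem_union, mem_singleton_iff] at hy
        rcases hy with rfl | rfl
        · exact hxd _ h3.1
        · exact h2
      · rintro ⟨-, u, hu, u', hu', e, h3, h4⟩
        obtain ⟨ξ, hξ, rfl⟩ := hxo2 u hu
        obtain ⟨ξ', hξ', rfl⟩ := Ordinal.mem_toZFSet_iff.1 hu'
        rw [← hencp] at e
        rw [hE1 _ _ e]
        exact ⟨ξ, ξ', rfl, hξ', (hRep ξ).2 ⟨hu, h3⟩, h4⟩
    · have hS := dSame hRW (B := B) hBW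
      refine DP.bex (f := fun _ => x) (P := fun u v => ∃ u' ∈ d.toZFSet,
        v 0 = ZFSet.pair (zn 2) (ZFSet.pair (ZFSet.pair (zn 1) u) (ZFSet.pair (zn 1) u')) ∧
        (∀ w ∈ u, ¬ Same W R B w u) ∧ Same W R B u u') (DT.par hxW) ?_
      refine DP.bex (f := fun _ => d.toZFSet) (P := fun u' v =>
        v 1 = ZFSet.pair (zn 2) (ZFSet.pair (ZFSet.pair (zn 1) (v 0)) (ZFSet.pair (zn 1) u')) ∧
        (∀ w ∈ v 0, ¬ Same W R B w (v 0)) ∧ Same W R B (v 0) u') (DT.par hdW) ?_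
      refine DP.and ?_ (DP.and ?_ ?_)
      · apply_rules (maxDepth := 500) [DP.eq, DT.pair, DT.nat, DT.var]
      · refine DP.ball (f := fun v => v 1) (P := fun w v => ¬ Same W R B w (v 1)) (DT.var 1) ?_
        exact (DP.app2 hS (DT.var 0) (DT.var 2)).not
      · exact DP.app2 hS (DT.var 1) (DT.var 0)
  · rintro p ⟨ξ, ξ', rfl, -⟩
    exact ⟨ξ, ξ', rfl⟩
  · -- fibres
    intro ξ
    by_cases hξ : Rep ξ
    · have hξW : ξ.toZFSet ∈ W := hz.trans _ hxW _ hξ.1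
      have hξQ : ODF W ∅ ξ.toZFSet := hOD3 _ ⟨hξW, Or.inl (ZFSet.isOrdinal_toZFSet _)⟩
      have hdQ : ODF W ∅ d.toZFSet := hOD3 _ ⟨hdW, Or.inl (ZFSet.isOrdinal_toZFSet _)⟩
      have h1 := hW3 (fun z => ∃ u' ∈ d.toZFSet, z = ZFSet.pair (zn 1) u' ∧
        Same W R B ξ.toZFSet u') ?_ d hd
      · convert h1 using 1
        ext t
        constructor
        · rintro ⟨y, rfl, h2⟩
          have h3 := (hU ξ y).1 h2
          refine ⟨?_, y.toZFSet, Ordinal.toZFSet_mem_toZFSet_iff.2 h3.1, rfl, h3.2.2⟩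
          intro z hz'
          simp only [Tr.leaves, mem_singleton_iff] at hz'
          subst hz'
          exact h3.1
        · rintro ⟨-, u', hu', e, h3⟩
          obtain ⟨ξ', hξ', rfl⟩ := Ordinal.mem_toZFSet_iff.1 hu'
          have e' : enc t = enc (.ord ξ') := e
          rw [hE1 _ _ e']
          exact ⟨ξ', rfl, (hU ξ ξ').2 ⟨hξ', hξ, h3⟩⟩
      · have hS := dSame hRQ (B := B) hBQ
        refine DP.bex (f := fun _ => d.toZFSet) (P := fun u' v => v 0 = ZFSet.pair (zn 1) u' ∧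
          Same W R B ξ.toZFSet u') (DT.par hdQ) ?_
        refine DP.and ?_ (DP.app2 hS (DT.par hξQ) (DT.var 0))
        exact DP.eq (DT.var 1) (DT.pair (DT.nat 1) (DT.var 0))
    · have h1 := hW3 (fun _ => False) DP.const d hd
      convert h1 using 1
      ext t
      constructor
      · rintro ⟨y, rfl, h2⟩
        exact absurd ((hU ξ y).1 h2).2.1 hξ
      · rintro ⟨-, h⟩
        exact h.elim
  · intro ξ ξ' h
    obtain ⟨-, h2, h3⟩ := (hU ξ ξ').1 h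
    exact (hxo ξ').1 ((hSx _ _ h3).1 h2.1)
  · intro ξ' h
    have h1 := (hxo ξ').2 h
    obtain ⟨ξ, hξ, hmin⟩ := WellFounded.has_min (wellFounded_lt (α := O))
      {ξ : O | Same W R B ξ.toZFSet ξ'.toZFSet} ⟨ξ', hSr _⟩
    refine ⟨ξ, (hU ξ ξ').2 ⟨hxd _ h1, ⟨(hSx _ _ hξ).2 h1, fun η hη h2 => ?_⟩, hξ⟩⟩
    exact hmin η (hSt _ _ _ h2 hξ) hη
  · -- the function `h`
    obtain ⟨E, hEW, hE⟩ := hz.sep (fun u => ∀ w ∈ u, ¬ Same W R B w u) (by
      refine DP.ball (f := fun v => v 0) (P := fun w v => ¬ Same W R B w (v 0)) (DT.var 0) ?_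
      exact (DP.app2 (dSame hRW (B := B) hBW) (DT.var 0) (DT.var 1)).not) x hxW
    have hEr : ∀ ξ : O, ξ.toZFSet ∈ E ↔ Rep ξ := fun ξ => (hE _).trans (hRep ξ).symm
    have hsec : ∀ u ∈ W, ∃ s ∈ W, ∀ b', b' ∈ s ↔ b' ∈ B ∧ Tz W R b' u := by
      intro u hu
      refine hz.sep (fun b' => Tz W R b' u) ?_ B hBW
      exact DP.app2 (dTz hRW) (DT.var 0) (DT.par hu)
    have huniq : ∀ u s s' : Z, (∀ b', b' ∈ s ↔ b' ∈ B ∧ Tz W R b' u) →
        (∀ b', b' ∈ s' ↔ b' ∈ B ∧ Tz W R b' u) → s = s' := by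
      intro u s s' h1 h2
      ext z
      rw [h1, h2]
    let RR : Z → Z → Prop := fun u p => ∃ s ∈ W, (∀ b' ∈ W, (b' ∈ s ↔ b' ∈ B ∧ Tz W R b' u)) ∧
      p = ZFSet.pair s u
    have hsW : ∀ u s, s ∈ W → ((∀ b' ∈ W, (b' ∈ s ↔ b' ∈ B ∧ Tz W R b' u)) ↔
        ∀ b', (b' ∈ s ↔ b' ∈ B ∧ Tz W R b' u)) := by
      intro u s hs
      constructor
      · intro h b'
        constructor
        · intro h1
          exact (h b' (hz.trans _ hs _ h1)).1 h1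
        · intro h1
          exact (h b' (hz.trans _ hBW _ h1.1)).2 h1
      · intro h b' _
        exact h b'
    have hRR : DP W W (fun v => RR (v 0) (v 1)) := by
      have h1 : DP W W (fun v => ∃ s ∈ W, (∀ b' ∈ W, (b' ∈ s ↔ b' ∈ B ∧ Tz W R b' (v 0))) ∧
          v 1 = ZFSet.pair s (v 0)) := by
        refine DP.ex (P := fun s v => (∀ b' ∈ W, (b' ∈ s ↔ b' ∈ B ∧ Tz W R b' (v 0))) ∧
          v 1 = ZFSet.pair s (v 0)) ?_
        refine DP.and ?_ (DP.eq (DT.var 2) (DT.pair (DT.var 0) (DT.var 1)))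
        refine DP.all (P := fun b' v => (b' ∈ v 0 ↔ b' ∈ B ∧ Tz W R b' (v 1))) ?_
        exact DP.iff (DP.mem (DT.var 0) (DT.var 1)) (DP.and (DP.mem (DT.var 0) (DT.par hBW))
          (DP.app2 (dTz hRW) (DT.var 0) (DT.var 2)))
      exact h1
    obtain ⟨h, hhW, hh⟩ := hz.repl RR hRR E hEW (by
      intro u hu
      have huW := hz.trans _ hEW _ hu
      obtain ⟨s, hs, hs'⟩ := hsec u huW
      refine ⟨ZFSet.pair s u, ZM.pair hs huW, ⟨s, hs, (hsW u s hs).2 hs', rfl⟩, ?_⟩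
      rintro y' - ⟨s', hs1, hs2, rfl⟩
      rw [huniq u s' s ((hsW u s' hs1).1 hs2) hs'])
    refine ⟨h, hhW, ?_, ?_, ?_⟩
    · intro p hp
      obtain ⟨-, u, hu, s, hs, hs', rfl⟩ := (hh p).1 hp
      obtain ⟨ξ, hξ, rfl⟩ := hxo2 u ((hE u).1 hu).1
      refine ⟨s, (hP s).2 ⟨hs, fun y hy => ((((hsW _ s hs).1 hs') y).1 hy).1⟩, ξ, ?_, rfl⟩
      exact ⟨ξ, (hU ξ ξ).2 ⟨hξ, (hEr ξ).1 hu, hSr _⟩⟩
    · intro a u u' h1 h2
      obtain ⟨-, w, hw, s, hs, hs', e⟩ := (hh _).1 h1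
      obtain ⟨-, w', hw', s', hs1, hs2, e'⟩ := (hh _).1 h2
      obtain ⟨rfl, rfl⟩ := ZFSet.pair_injective e
      obtain ⟨rfl, rfl⟩ := ZFSet.pair_injective e'
      obtain ⟨ξ, hξ, rfl⟩ := hxo2 u ((hE u).1 hw).1
      obtain ⟨ξ', hξ', rfl⟩ := hxo2 u' ((hE u').1 hw').1
      have hSame : Same W R B ξ.toZFSet ξ'.toZFSet := by
        intro b' hb'
        have k1 := ((hsW _ a hs).1 hs') b'
        have k2 := ((hsW _ a hs1).1 hs2) b'
        constructor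
        · intro k
          exact (k2.1 (k1.2 ⟨hb', k⟩)).2
        · intro k
          exact (k1.1 (k2.2 ⟨hb', k⟩)).2
      rcases lt_trichotomy ξ ξ' with hlt | heq | hlt
      · exact absurd hSame (((hEr ξ').1 hw').2 ξ hlt)
      · rw [heq]
      · exact absurd (hSs _ _ hSame) (((hEr ξ).1 hw).2 ξ' hlt)
    · rintro ξ ⟨ξ', hξ'⟩
      have h1 := ((hU ξ ξ').1 hξ').2.1
      have h2 := (hEr ξ).2 h1
      have huW := hz.trans _ hEW _ h2
      obtain ⟨s, hs, hs'⟩ := hsec _ huW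
      exact ⟨s, (hh _).2 ⟨ZM.pair hs huW, ξ.toZFSet, h2, s, hs, (hsW _ s hs).2 hs', rfl⟩⟩

end Pool.Agent.Helper17.OD.PkFB2
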